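import Pool.Agent.W606.PS.Cyl

/-!
Project PS, piece `S_CYL3`: the box `[0, L]²` of the lattice is an induced subgraph of the
triangulated cylinder.
-/

set_option autoImplicit false

open Set Relation

namespace Pool.Agent.W7.PSC

open Pool.Agent.W606.PS

theorem cP_box (n m : ℕ) (i : ZMod n) (J : ℕ) (h : J < m) :
    cP n m i (J + 1) = Sum.inl (i, ⟨J, h⟩) := by
  simp [cP, h]

theorem cP_inl (n m : ℕ) (i a : ZMod n) (J : ℕ) (K : Fin m)
    (h : cP n m i J = Sum.inl (a, K)) : i = a ∧ J = K + 1 := by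
  unfold cP at h
  split_ifs at h with h0 h1
  · rw [Sum.inl.injEq, Prod.mk.injEq] at h
    refine ⟨h.1, ?_⟩
    rw [← h.2]
    simp only
    omega

theorem edge_iff (n m : ℕ) (a b : ZMod n) (J K : Fin m) :
    (∃ x, cE n m x 0 = Sum.inl (a, J) ∧ cE n m x 1 = Sum.inl (b, K)) ↔
      ((b = a + 1 ∧ (K : ℕ) = J) ∨ (b = a ∧ (K : ℕ) = J + 1) ∨
        (b = a + 1 ∧ (K : ℕ) = J + 1)) := by
  constructor
  · rintro ⟨x, h0, h1⟩
    rcases x with ⟨i, j⟩ | ⟨i, j⟩ | ⟨i, j⟩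
    · simp only [cE, Matrix.cons_val_zero, Matrix.cons_val_one] at h0 h1
      obtain ⟨e1, e2⟩ := cP_inl _ _ _ _ _ _ h0
      obtain ⟨e3, e4⟩ := cP_inl _ _ _ _ _ _ h1
      left
      refine ⟨by rw [← e3, e1], by omega⟩
    · simp only [cE, Matrix.cons_val_zero, Matrix.cons_val_one] at h0 h1
      obtain ⟨e1, e2⟩ := cP_inl _ _ _ _ _ _ h0
      obtain ⟨e3, e4⟩ := cP_inl _ _ _ _ _ _ h1
      right; left
      refine ⟨by rw [← e3, e1], by omega⟩
    · simp only [cE, Matrix.cons_val_zero, Matrix.cons_val_one] at h0 h1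
      obtain ⟨e1, e2⟩ := cP_inl _ _ _ _ _ _ h0
      obtain ⟨e3, e4⟩ := cP_inl _ _ _ _ _ _ h1
      right; right
      refine ⟨by rw [← e3, e1], by omega⟩
  · rintro (⟨e1, e2⟩ | ⟨e1, e2⟩ | ⟨e1, e2⟩)
    · refine ⟨Sum.inl (a, J), ?_, ?_⟩
      · simp only [cE, Matrix.cons_val_zero]
        rw [cP_box n m a J J.2]
      · simp only [cE, Matrix.cons_val_one]
        rw [cP_box n m (a + 1) J J.2, e1]
        have : K = J := Fin.ext e2
        rw [this]
        rfl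
    · refine ⟨Sum.inr (Sum.inl (a, ⟨J + 1, by omega⟩)), ?_, ?_⟩
      · simp only [cE, Matrix.cons_val_zero]
        rw [cP_box n m a J J.2]
      · simp only [cE, Matrix.cons_val_one]
        have hK : (J : ℕ) + 1 < m := by omega
        rw [cP_box n m a (J + 1) hK, e1]
        have : K = ⟨J + 1, hK⟩ := Fin.ext e2
        rw [this]
        rfl
    · refine ⟨Sum.inr (Sum.inr (a, ⟨J, by omega⟩)), ?_, ?_⟩
      · simp only [cE, Matrix.cons_val_zero]
        rw [cP_box n m a J J.2]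
      · simp only [cE, Matrix.cons_val_one]
        have hK : (J : ℕ) + 1 < m := by omega
        rw [show (J : ℕ) + 2 = (J + 1) + 1 by ring, cP_box n m (a + 1) (J + 1) hK, e1]
        have : K = ⟨J + 1, hK⟩ := Fin.ext e2
        rw [this]
        rfl

theorem cast_inj (N : ℕ) (x y : ℤ) (h : |y - x| < N) (e : (x : ZMod N) = (y : ZMod N)) :
    x = y := by
  rw [ZMod.intCast_eq_intCast_iff, Int.modEq_iff_dvd] at e
  have := Int.eq_zero_of_abs_lt_dvd e h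
  omega

theorem main : S_CYL3 := by
  intro L p q hp1 hp1' hp2 hp2' hq1 hq1' hq2 hq2'
  have hJ : p.2.toNat < L + 1 := by omega
  have hK : q.2.toNat < L + 1 := by omega
  rw [cP_box (L + 3) (L + 1) _ _ hJ, cP_box (L + 3) (L + 1) _ _ hK]
  have inj : ∀ x y : ℤ, 0 ≤ x → x ≤ L + 1 → 0 ≤ y → y ≤ L + 1 →
      ((x : ZMod (L + 3)) = (y : ZMod (L + 3)) ↔ x = y) := by
    intro x y h1 h2 h3 h4
    constructor
    · intro e
      apply cast_inj (L + 3) x y _ e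
      rw [abs_lt]
      push_cast
      constructor <;> omega
    · rintro rfl; rfl
  constructor
  · intro e
    rw [Sum.inl.injEq, Prod.mk.injEq, Fin.mk.injEq] at e
    obtain ⟨e1, e2⟩ := e
    have := (inj p.1 q.1 hp1 (by omega) hq1 (by omega)).1 e1
    ext
    · exact this
    · omega
  · have key : ∀ p q : ℤ × ℤ, 0 ≤ p.1 → p.1 ≤ L → 0 ≤ p.2 → p.2 ≤ L →
      0 ≤ q.1 → q.1 ≤ L → 0 ≤ q.2 → q.2 ≤ L → ∀ (hJ : p.2.toNat < L + 1) (hK : q.2.toNat < L + 1),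
      ((∃ x, cE (L + 3) (L + 1) x 0 = Sum.inl ((p.1 : ZMod (L + 3)), ⟨p.2.toNat, hJ⟩) ∧
        cE (L + 3) (L + 1) x 1 = Sum.inl ((q.1 : ZMod (L + 3)), ⟨q.2.toNat, hK⟩)) ↔
        ((q.1 = p.1 + 1 ∧ q.2 = p.2) ∨ (q.1 = p.1 ∧ q.2 = p.2 + 1) ∨
          (q.1 = p.1 + 1 ∧ q.2 = p.2 + 1))) := by
      intro p q hp1 hp1' hp2 hp2' hq1 hq1' hq2 hq2' hJ hK
      rw [edge_iff]
      have e1 : ((q.1 : ZMod (L + 3)) = (p.1 : ZMod (L + 3)) + 1) ↔ q.1 = p.1 + 1 := by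
        have := inj q.1 (p.1 + 1) hq1 (by omega) (by omega) (by omega)
        rw [← this]
        push_cast
        rfl
      have e2 : ((q.1 : ZMod (L + 3)) = (p.1 : ZMod (L + 3))) ↔ q.1 = p.1 :=
        inj q.1 p.1 hq1 (by omega) hp1 (by omega)
      rw [e1, e2]
      simp only
      constructor
      · rintro (⟨a, b⟩ | ⟨a, b⟩ | ⟨a, b⟩)
        · left; exact ⟨a, by omega⟩
        · right; left; exact ⟨a, by omega⟩
        · right; right; exact ⟨a, by omega⟩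
      · rintro (⟨a, b⟩ | ⟨a, b⟩ | ⟨a, b⟩)
        · left; exact ⟨a, by omega⟩
        · right; left; exact ⟨a, by omega⟩
        · right; right; exact ⟨a, by omega⟩
    have kpq := key p q hp1 hp1' hp2 hp2' hq1 hq1' hq2 hq2' hJ hK
    have kqp := key q p hq1 hq1' hq2 hq2' hp1 hp1' hp2 hp2' hK hJ
    have hne : ((Sum.inl ((p.1 : ZMod (L + 3)), ⟨p.2.toNat, hJ⟩) : CX (L + 3) (L + 1)) ≠
        Sum.inl ((q.1 : ZMod (L + 3)), ⟨q.2.toNat, hK⟩)) ↔ p ≠ q := by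
      rw [not_iff_not, Sum.inl.injEq, Prod.mk.injEq, Fin.mk.injEq,
        inj p.1 q.1 hp1 (by omega) hq1 (by omega)]
      constructor
      · rintro ⟨a, b⟩
        ext
        · exact a
        · omega
      · rintro rfl
        exact ⟨rfl, rfl⟩
    unfold Cx.gr W606.PS.Lat
    rw [SimpleGraph.fromRel_adj, SimpleGraph.fromRel_adj, hne]
    change (p ≠ q ∧ ((∃ x, cE (L + 3) (L + 1) x 0 = _ ∧ cE (L + 3) (L + 1) x 1 = _) ∨
      (∃ x, cE (L + 3) (L + 1) x 0 = _ ∧ cE (L + 3) (L + 1) x 1 = _))) ↔ _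
    rw [kpq, kqp]

end Pool.Agent.W7.PSC
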